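import Mathlib
import Pool.Agent.TH949.TX.Defs

/-!
# Shifting a Gaussian weighted line integral
-/

set_option autoImplicit false

open Complex MeasureTheory Set Filter Topology

namespace Pool.Agent.TH113.TX

open Pool.Agent.TH949.TX

namespace Shift

/-- the weight as a function on the plane -/
noncomputable def ee (κ Y : ℝ) (w : ℂ) : ℂ := Complex.exp (κ * w ^ 2 + w * Y)

theorem norm_ee (κ Y : ℝ) (w : ℂ) :
    ‖ee κ Y w‖ = Real.exp (κ * (w.re ^ 2 - w.im ^ 2) + w.re * Y) := by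
  unfold ee
  rw [Complex.norm_exp]
  congr 1
  simp only [add_re, mul_re, ofReal_re, ofReal_im, zero_mul, sub_zero, mul_zero, pow_two]

theorem EE_eq (κ Y a v : ℝ) : EE κ Y a v = ee κ Y ((a : ℂ) + v * I) := rfl

theorem norm_EE (κ Y a v : ℝ) :
    ‖EE κ Y a v‖ = Real.exp (κ * (a ^ 2 - v ^ 2) + a * Y) := by
  rw [EE_eq, norm_ee]
  simp

theorem ee_diff (κ Y : ℝ) : Differentiable ℂ (ee κ Y) := by
  unfold ee
  fun_prop

theorem tendsto_exp {c : ℝ} (hc : c < 0) (A : ℝ) :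
    Tendsto (fun Y : ℝ => A * Real.exp (c * Y)) atTop (𝓝 0) := by
  have h1 : Tendsto (fun Y : ℝ => c * Y) atTop atBot :=
    tendsto_id.const_mul_atTop_of_neg hc
  have h2 := (Real.tendsto_exp_atBot.comp h1).const_mul A
  rw [mul_zero] at h2
  exact h2

end Shift

open Shift

theorem t_shift {k1 : ℝ → ℂ} {k : ℂ → ℂ} {a b V η B : ℝ} (hη : 0 < η) (hba : b < a) (hV : 0 < V)
    (hb : η * b ^ 2 + b < 0) (hV2 : η * (max (a ^ 2) (b ^ 2) - V ^ 2) + a < 0)
    (hk1c : Continuous k1) (hk1 : ∀ v, ‖k1 v‖ ≤ B)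
    (hk : ∀ w ∈ Icc b a ×ℂ Icc (-V) V, DifferentiableAt ℂ k w)
    (heq : ∀ v ∈ Icc (-V) V, k ((a : ℂ) + v * I) = k1 v) :
    Tendsto (fun Y : ℝ => ∫ v : ℝ, k1 v * EE (η * Y) Y a v) atTop (𝓝 0) := by
  have hB : 0 ≤ B := (norm_nonneg _).trans (hk1 0)
  have hcomp : IsCompact (Icc b a ×ℂ Icc (-V) V) := isCompact_Icc.reProdIm isCompact_Icc
  have hkc : ContinuousOn k (Icc b a ×ℂ Icc (-V) V) :=
    fun w hw => (hk w hw).continuousAt.continuousWithinAt
  obtain ⟨M, hM⟩ := hcomp.exists_bound_of_continuousOn hkc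
  have hM0 : 0 ≤ M := by
    have h : ((b : ℂ) + (V : ℝ) * I) ∈ Icc b a ×ℂ Icc (-V) V := by
      rw [mem_reProdIm]
      simp only [add_re, ofReal_re, mul_re, I_re, mul_zero, ofReal_im, I_im, mul_one, sub_self,
        add_zero, add_im, mul_im, zero_add]
      exact ⟨⟨le_rfl, hba.le⟩, ⟨by linarith, le_rfl⟩⟩
    exact (norm_nonneg _).trans (hM _ h)
  obtain ⟨m, hm⟩ : ∃ m, m = max (a ^ 2) (b ^ 2) := ⟨_, rfl⟩
  have hma : a ^ 2 ≤ m := by rw [hm]; exact le_max_left _ _
  have hmb : b ^ 2 ≤ m := by rw [hm]; exact le_max_right _ _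
  rw [← hm] at hV2
  obtain ⟨G, hG⟩ : ∃ G : ℝ, G = ∫ v : ℝ, Real.exp (-η * v ^ 2) := ⟨_, rfl⟩
  obtain ⟨c1, hc1⟩ : ∃ c : ℝ, c = η * a ^ 2 + a - η * V ^ 2 := ⟨_, rfl⟩
  obtain ⟨c2, hc2⟩ : ∃ c : ℝ, c = η * b ^ 2 + b := ⟨_, rfl⟩
  obtain ⟨c3, hc3⟩ : ∃ c : ℝ, c = η * (m - V ^ 2) + a := ⟨_, rfl⟩
  have hc1' : c1 < 0 := by
    have := mul_le_mul_of_nonneg_left hma hη.le
    rw [hc1]
    linarith
  have hlim : Tendsto (fun Y : ℝ => B * Real.exp (η * V ^ 2) * G * Real.exp (c1 * Y) +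
      (M * (2 * V) * Real.exp (c2 * Y) + (2 * (M * (a - b))) * Real.exp (c3 * Y))) atTop (𝓝 0) := by
    have := (tendsto_exp hc1' (B * Real.exp (η * V ^ 2) * G)).add
      ((tendsto_exp (c := c2) (by rw [hc2]; exact hb) (M * (2 * V))).add
        (tendsto_exp (c := c3) (by rw [hc3]; exact hV2) (2 * (M * (a - b)))))
    simpa using this
  refine squeeze_zero_norm' ?_ hlim
  filter_upwards [eventually_ge_atTop 1] with Y hY
  have hY0 : 0 < Y := by linarith
  obtain ⟨g, hg⟩ : ∃ g : ℝ → ℂ, g = fun v : ℝ => k1 v * EE (η * Y) Y a v := ⟨_, rfl⟩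
  have hgc : Continuous g := by
    rw [hg]
    refine hk1c.mul ?_
    unfold EE
    fun_prop
  have hint2 : Integrable (fun v : ℝ => B * Real.exp (η * Y * a ^ 2 + a * Y) *
      Real.exp (-(η * Y) * v ^ 2)) := (integrable_exp_neg_mul_sq (by positivity)).const_mul _
  have hint : Integrable g := by
    refine hint2.mono' hgc.aestronglyMeasurable (Eventually.of_forall fun v => ?_)
    rw [hg]
    show ‖k1 v * EE (η * Y) Y a v‖ ≤ _
    rw [norm_mul, norm_EE, mul_assoc B, ← Real.exp_add]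
    have e : η * Y * (a ^ 2 - v ^ 2) + a * Y = η * Y * a ^ 2 + a * Y + -(η * Y) * v ^ 2 := by ring
    rw [e]
    exact mul_le_mul_of_nonneg_right (hk1 v) (Real.exp_pos _).le
  have hsplit : ∫ v : ℝ, g v = (∫ v in -V..V, g v) + ∫ v in (Ioc (-V) V)ᶜ, g v := by
    rw [intervalIntegral.integral_of_le (by linarith)]
    exact (integral_add_compl measurableSet_Ioc hint).symm
  have hout : ‖∫ v in (Ioc (-V) V)ᶜ, g v‖ ≤
      B * Real.exp (η * V ^ 2) * G * Real.exp (c1 * Y) := by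
    have hi : Integrable (fun v : ℝ => B * Real.exp (η * V ^ 2) * Real.exp (c1 * Y) *
        Real.exp (-η * v ^ 2)) := (integrable_exp_neg_mul_sq hη).const_mul _
    calc ‖∫ v in (Ioc (-V) V)ᶜ, g v‖ ≤ ∫ v in (Ioc (-V) V)ᶜ,
          B * Real.exp (η * V ^ 2) * Real.exp (c1 * Y) * Real.exp (-η * v ^ 2) := by
          refine norm_integral_le_of_norm_le hi.integrableOn ?_
          refine (ae_restrict_iff' measurableSet_Ioc.compl).2 (Eventually.of_forall fun v hv => ?_)
          have hv2 : V ^ 2 ≤ v ^ 2 := by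
            have h1 : ¬ (-V < v ∧ v ≤ V) := hv
            by_cases h2 : -V < v
            · have h3 : V < v := by
                by_contra h4
                exact h1 ⟨h2, not_lt.1 h4⟩
              nlinarith
            · have h3 : v ≤ -V := not_lt.1 h2
              nlinarith
          rw [hg]
          show ‖k1 v * EE (η * Y) Y a v‖ ≤ _
          rw [norm_mul, norm_EE, mul_assoc B, mul_assoc B, ← Real.exp_add, ← Real.exp_add]
          refine mul_le_mul (hk1 v) (Real.exp_le_exp.2 ?_) (Real.exp_pos _).le hB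
          have h5 : 0 ≤ η * ((Y - 1) * (v ^ 2 - V ^ 2)) :=
            mul_nonneg hη.le (mul_nonneg (by linarith) (by linarith))
          rw [hc1]
          nlinarith
      _ ≤ ∫ v : ℝ, B * Real.exp (η * V ^ 2) * Real.exp (c1 * Y) * Real.exp (-η * v ^ 2) := by
          refine setIntegral_le_integral hi (Eventually.of_forall fun v => ?_)
          show 0 ≤ B * Real.exp (η * V ^ 2) * Real.exp (c1 * Y) * Real.exp (-η * v ^ 2)
          positivity
      _ = B * Real.exp (η * V ^ 2) * G * Real.exp (c1 * Y) := by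
          rw [integral_const_mul, ← hG]
          ring
  -- the inner part
  obtain ⟨F, hF⟩ : ∃ F : ℂ → ℂ, F = fun w => k w * ee (η * Y) Y w := ⟨_, rfl⟩
  have hFd : DifferentiableOn ℂ F (Icc b a ×ℂ Icc (-V) V) := by
    intro w hw
    rw [hF]
    exact ((hk w hw).mul (ee_diff _ _ w)).differentiableWithinAt
  have hgF : ∫ v in -V..V, g v = ∫ v in -V..V, F ((a : ℂ) + v * I) := by
    refine intervalIntegral.integral_congr fun v hv => ?_
    rw [uIcc_of_le (by linarith)] at hv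
    rw [hg, hF]
    show k1 v * EE (η * Y) Y a v = k ((a : ℂ) + v * I) * ee (η * Y) Y ((a : ℂ) + v * I)
    rw [heq v hv, EE_eq]
  have hrect := integral_boundary_rect_eq_zero_of_differentiableOn F ((b : ℂ) + (-V : ℝ) * I)
    ((a : ℂ) + (V : ℝ) * I) (by
      have e1 : ((b : ℂ) + (-V : ℝ) * I).re = b := by simp
      have e2 : ((b : ℂ) + (-V : ℝ) * I).im = -V := by simp
      have e3 : ((a : ℂ) + (V : ℝ) * I).re = a := by simp
      have e4 : ((a : ℂ) + (V : ℝ) * I).im = V := by simp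
      rw [e1, e2, e3, e4, uIcc_of_le hba.le, uIcc_of_le (by linarith)]
      exact hFd)
  have e1 : ((b : ℂ) + (-V : ℝ) * I).re = b := by simp
  have e2 : ((b : ℂ) + (-V : ℝ) * I).im = -V := by simp
  have e3 : ((a : ℂ) + (V : ℝ) * I).re = a := by simp
  have e4 : ((a : ℂ) + (V : ℝ) * I).im = V := by simp
  rw [e1, e2, e3, e4] at hrect
  -- bounds of F
  have hFn : ∀ x v : ℝ, x ∈ Icc b a → v ∈ Icc (-V) V →
      ‖F ((x : ℂ) + v * I)‖ ≤ M * Real.exp (η * Y * (x ^ 2 - v ^ 2) + x * Y) := by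
    intro x v hx hv
    rw [hF]
    show ‖k ((x : ℂ) + v * I) * ee (η * Y) Y ((x : ℂ) + v * I)‖ ≤ _
    rw [norm_mul, norm_ee]
    have r1 : ((x : ℂ) + v * I).re = x := by simp
    have r2 : ((x : ℂ) + v * I).im = v := by simp
    rw [r1, r2]
    refine mul_le_mul_of_nonneg_right (hM _ ?_) (Real.exp_pos _).le
    rw [mem_reProdIm, r1, r2]
    exact ⟨hx, hv⟩
  have hleft : ‖∫ y in -V..V, F ((b : ℂ) + y * I)‖ ≤ M * (2 * V) * Real.exp (c2 * Y) := by
    have h := intervalIntegral.norm_integral_le_of_norm_le_const (a := -V) (b := V)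
      (f := fun y : ℝ => F ((b : ℂ) + y * I)) (C := M * Real.exp (c2 * Y)) (by
        intro y hy
        rw [uIoc_of_le (by linarith)] at hy
        refine (hFn b y ⟨le_rfl, hba.le⟩ ⟨hy.1.le, hy.2⟩).trans ?_
        refine mul_le_mul_of_nonneg_left (Real.exp_le_exp.2 ?_) hM0
        have h5 : 0 ≤ η * Y * y ^ 2 := by positivity
        rw [hc2]
        nlinarith)
    refine h.trans (le_of_eq ?_)
    rw [abs_of_pos (by linarith)]
    ring
  have hside : ∀ v : ℝ, v ∈ Icc (-V) V → v ^ 2 = V ^ 2 →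
      ‖∫ x in b..a, F ((x : ℂ) + v * I)‖ ≤ M * (a - b) * Real.exp (c3 * Y) := by
    intro v hv hv2
    have h := intervalIntegral.norm_integral_le_of_norm_le_const (a := b) (b := a)
      (f := fun x : ℝ => F ((x : ℂ) + v * I)) (C := M * Real.exp (c3 * Y)) (by
        intro x hx
        rw [uIoc_of_le hba.le] at hx
        refine (hFn x v ⟨hx.1.le, hx.2⟩ hv).trans ?_
        refine mul_le_mul_of_nonneg_left (Real.exp_le_exp.2 ?_) hM0
        have hxm : x ^ 2 ≤ m := by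
          rcases le_total 0 x with h0 | h0
          · have : x ^ 2 ≤ a ^ 2 := pow_le_pow_left₀ h0 hx.2 2
            linarith
          · have h1 : x ^ 2 ≤ b ^ 2 := by nlinarith [hx.1]
            linarith
        have h5 : 0 ≤ η * Y * (m - x ^ 2) := by
          have : 0 ≤ m - x ^ 2 := by linarith
          positivity
        have h6 : 0 ≤ (a - x) * Y := mul_nonneg (by linarith [hx.2]) hY0.le
        rw [hv2, hc3]
        nlinarith)
    refine h.trans (le_of_eq ?_)
    rw [abs_of_pos (by linarith)]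
    ring
  have hs1 := hside V ⟨by linarith, le_rfl⟩ rfl
  have hs2 := hside (-V) ⟨le_rfl, by linarith⟩ (by ring)
  have hin : ‖∫ v in -V..V, g v‖ ≤
      M * (2 * V) * Real.exp (c2 * Y) + (2 * (M * (a - b))) * Real.exp (c3 * Y) := by
    rw [hgF]
    have e : I • (∫ y in -V..V, F ((a : ℂ) + y * I)) =
        I • (∫ y in -V..V, F ((b : ℂ) + y * I)) + (∫ x in b..a, F ((x : ℂ) + V * I)) -
          ∫ x in b..a, F ((x : ℂ) + (-V : ℝ) * I) := by
      linear_combination hrect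
    have h1 : ‖∫ y in -V..V, F ((a : ℂ) + y * I)‖ =
        ‖I • (∫ y in -V..V, F ((a : ℂ) + y * I))‖ := by
      rw [norm_smul, norm_I, one_mul]
    rw [h1, e]
    refine (norm_sub_le _ _).trans ?_
    have h2 := norm_add_le (I • (∫ y in -V..V, F ((b : ℂ) + y * I)))
      (∫ x in b..a, F ((x : ℂ) + V * I))
    rw [norm_smul, norm_I, one_mul] at h2
    linarith
  show ‖∫ v : ℝ, k1 v * EE (η * Y) Y a v‖ ≤ _
  have e5 : (∫ v : ℝ, k1 v * EE (η * Y) Y a v) = ∫ v : ℝ, g v := by rw [hg]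
  rw [e5, hsplit]
  refine (norm_add_le _ _).trans ?_
  linarith

end Pool.Agent.TH113.TX
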